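import Pool.Agent.H66.SYM.Basic

/-!
# Module RSY: symmetric Laurent polynomials in the eigenvalues of `τ`
-/

namespace Pool.H66.SYM

open Filter Topology

noncomputable section

theorem RSY_mon_shift {m : ℕ} (c : Fin m → ℂ) (hc : ∀ j, c j ≠ 0) (a : Fin m → ℤ) (H : ℕ) :
    mon c (a + fun _ => (H : ℤ)) = mon c a * (∏ j, c j) ^ H := by
  rw [mon_add c hc]
  congr 1
  simp [mon, Finset.prod_pow]

theorem RSY_one (A : Aut) {τ : A.Cusp} {m : ℕ} (hBAS : S_BAS) (h1 : A.one ∈ A.Irr τ m 0 0) :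
    (1 : A.Pt → ℂ) ∈ A.RH τ m 0 0 := by
  have h : A.tr A.one = (1 : A.Pt → ℂ) := by
    funext p
    unfold AData.tr
    rw [(hBAS A).2.2.2.1 p]
    simp
  rw [← h]
  exact AddSubgroup.subset_closure (Set.mem_image_of_mem _ h1)

theorem RSY_list (A : Aut) {τ : A.Cusp} {m : ℕ}
    (hmul : ∀ d d' H H', ∀ F ∈ A.RH τ m d H, ∀ G ∈ A.RH τ m d' H',
      F * G ∈ A.RH τ m (d + d') (H + H'))
    (h1 : (1 : A.Pt → ℂ) ∈ A.RH τ m 0 0)
    (hk : ∀ k : ℕ, (fun p => hs k (A.eig τ p)) ∈ A.RH τ m k k) (l : List ℕ) :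
    (l.map fun k => (fun p : A.Pt => hs k (A.eig τ p))).prod ∈ A.RH τ m (l.sum : ℕ) l.sum := by
  induction l with
  | nil => simpa using h1
  | cons k l ih =>
    rw [List.map_cons, List.prod_cons, List.sum_cons]
    push_cast
    have := hmul _ _ _ _ _ (hk k) _ ih
    push_cast at this
    exact this

theorem RSY_pow (A : Aut) {τ : A.Cusp} {m : ℕ}
    (hmul : ∀ d d' H H', ∀ F ∈ A.RH τ m d H, ∀ G ∈ A.RH τ m d' H',
      F * G ∈ A.RH τ m (d + d') (H + H'))
    (h1 : (1 : A.Pt → ℂ) ∈ A.RH τ m 0 0) {d : ℤ} {h : ℕ} {F : A.Pt → ℂ}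
    (hF : F ∈ A.RH τ m d h) (n : ℕ) : F ^ n ∈ A.RH τ m (n * d) (n * h) := by
  induction n with
  | zero => simpa using h1
  | succ n ih =>
    rw [pow_succ]
    have := hmul _ _ _ _ _ ih _ hF
    have e1 : ((n + 1 : ℕ) : ℤ) * d = n * d + d := by push_cast; ring
    have e2 : (n + 1) * h = n * h + h := by ring
    rw [e1, e2]
    exact this

theorem s_RSY (hBAS : S_BAS) (hRMU : S_RMU) (hRTA : S_RTA) (hRPS : S_RPS) (hFTS : S_FTS) :
    S_RSY := by
  intro A τ m hsym hm hdeg d H φ hφ hsy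
  obtain ⟨_, _, hmul, _, _, hmono⟩ := hRMU A τ m (hsym 2) hm hdeg
  obtain ⟨h1', hτ, _, _, _, δ, hδ, hδp⟩ := hRTA A τ m hm hdeg
  obtain ⟨hps, _, _⟩ := hRPS A τ m hsym hm hdeg
  have h1 := RSY_one A hBAS h1'
  have hne : ∀ p (c : Fin m → ℂ), A.Ord τ p c → ∀ j, c j ≠ 0 := by
    intro p c hc j h0
    refine (hBAS A).2.1 τ p ?_
    rw [show A.eig τ p = Finset.univ.val.map c from hc]
    exact Multiset.mem_map.2 ⟨j, Finset.mem_univ j, h0⟩
  by_cases hφ0 : φ = 0
  · subst hφ0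
    refine ⟨0, AddSubgroup.zero_mem _, fun p c _ => ?_⟩
    rw [ev_zero]
    rfl
  obtain ⟨a0, ha0⟩ := Finsupp.support_nonempty_iff.2 hφ0
  have hd : |d| ≤ (H : ℤ) := by
    have h := hφ a0 ha0
    rw [← h.1]
    exact (Finset.abs_sum_le_sum_abs _ _).trans h.2
  have hd' := abs_le.1 hd
  have hmH : (H : ℤ) ≤ (m : ℤ) * H := by
    have : (1 : ℤ) ≤ m := by exact_mod_cast (by omega : 1 ≤ m)
    nlinarith [Int.natCast_nonneg H]
  obtain ⟨D, hD⟩ : ∃ D : ℕ, (D : ℤ) = d + m * H := ⟨(d + m * H).toNat, by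
    rw [Int.toNat_of_nonneg (by linarith)]⟩
  set e : (Fin m → ℤ) ≃ (Fin m → ℤ) := Equiv.addRight (fun _ => (H : ℤ)) with he
  have hee : ∀ a, e a = a + fun _ => (H : ℤ) := fun a => rfl
  set φ' : (Fin m → ℤ) →₀ ℤ := φ.embDomain e.toEmbedding with hφ'
  have happ : ∀ a, φ' (e a) = φ a := fun a => Finsupp.embDomain_apply_self e.toEmbedding φ a
  have hsupp : ∀ a ∈ φ'.support, (∀ j, 0 ≤ a j) ∧ ∑ j, a j = D := by
    intro b hb
    obtain ⟨a, rfl⟩ := e.surjective b
    have ha : a ∈ φ.support := by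
      rw [Finsupp.mem_support_iff] at hb ⊢
      rwa [happ] at hb
    have hW := hφ a ha
    constructor
    · intro j
      have h2 : |a j| ≤ (H : ℤ) := (Finset.single_le_sum (f := fun j => |a j|)
        (fun i _ => abs_nonneg _) (Finset.mem_univ j)).trans hW.2
      have h3 := (abs_le.1 h2).1
      rw [hee]
      simp only [Pi.add_apply]
      linarith
    · rw [hee, hD]
      simp only [Pi.add_apply, Finset.sum_add_distrib, hW.1]
      simp
  have hsy' : ∀ (σ : Equiv.Perm (Fin m)) (a : Fin m → ℤ), φ' (a ∘ σ) = φ' a := by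
    intro σ b
    obtain ⟨a, rfl⟩ := e.surjective b
    have h : (e a) ∘ σ = e (a ∘ σ) := rfl
    rw [h, happ, happ, hsy]
  obtain ⟨ψ, hψ, hev⟩ := hFTS m D φ' hsupp hsy'
  have hk : ∀ k : ℕ, (fun p => hs k (A.eig τ p)) ∈ A.RH τ m k k := by
    intro k
    have := hps 1 1 τ hτ k
    simpa using this
  set G : A.Pt → ℂ := ∑ l ∈ ψ.support, ψ l • (l.map fun k => (fun p : A.Pt =>
    hs k (A.eig τ p))).prod with hG
  have hGm : G ∈ A.RH τ m D D := by
    rw [hG]
    refine AddSubgroup.sum_mem _ fun l hl => AddSubgroup.zsmul_mem _ ?_ _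
    have := RSY_list A hmul h1 hk l
    rwa [hψ l hl] at this
  have hδm : A.tr δ ∈ A.RH τ m (-m) m :=
    AddSubgroup.subset_closure (Set.mem_image_of_mem _ hδ)
  have hδH := RSY_pow A hmul h1 hδm H
  refine ⟨G * A.tr δ ^ H, ?_, ?_⟩
  · have h2 := hmul _ _ _ _ _ hGm _ hδH
    have e1 : (D : ℤ) + H * (-m) = d := by rw [hD]; ring
    rw [e1] at h2
    refine hmono _ _ _ ?_ h2
    have : ((D + H * m : ℕ) : ℤ) ≤ (((2 * m + 1) * H : ℕ) : ℤ) := by
      push_cast
      rw [hD]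
      linarith [hd'.2]
    exact_mod_cast this
  · intro p c hc
    have hcn := hne p c hc
    have hE : A.eig τ p = Finset.univ.val.map c := hc
    have hprod : (A.eig τ p).prod = ∏ j, c j := by rw [hE]; rfl
    have hpn : (∏ j, c j) ≠ 0 := Finset.prod_ne_zero_iff.2 fun j _ => hcn j
    have hGp : G p = ev φ' c := by
      rw [hev c, hG, Finset.sum_apply]
      unfold Finsupp.sum
      refine Finset.sum_congr rfl fun l _ => ?_
      rw [Pi.smul_apply, zsmul_eq_mul]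
      congr 1
      have hl : ∀ l : List ℕ, (l.map fun k => (fun p : A.Pt => hs k (A.eig τ p))).prod p =
          (l.map fun k => hs k (Finset.univ.val.map c)).prod := by
        intro l
        induction l with
        | nil => simp
        | cons k l ih => simp only [List.map_cons, List.prod_cons, Pi.mul_apply, ih, hE]
      exact hl l
    have hshift : ev φ' c = ev φ c * (∏ j, c j) ^ H := by
      unfold ev
      rw [hφ', Finsupp.sum_embDomain]
      unfold Finsupp.sum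
      rw [Finset.sum_mul]
      refine Finset.sum_congr rfl fun a _ => ?_
      change (φ a : ℂ) * mon c (a + fun _ => (H : ℤ)) = (φ a : ℂ) * mon c a * (∏ j, c j) ^ H
      rw [RSY_mon_shift c hcn]
      ring
    rw [Pi.mul_apply, Pi.pow_apply, hGp, hshift, hδp, hprod, inv_pow, mul_assoc,
      mul_inv_cancel₀ (pow_ne_zero _ hpn), mul_one]

end

end Pool.H66.SYM
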