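import Pool.Agent.H66.SYM.Basic

/-!
# Module TMP: temperedness of the constituents
-/

namespace Pool.H66.SYM

open Filter Topology

noncomputable section

theorem TMP_norm_prod (X : Multiset ℂ) (h : ∀ e ∈ X, ‖e‖ = 1) : ‖X.prod‖ = 1 := by
  induction X using Multiset.induction_on with
  | empty => simp
  | cons a X ih =>
    rw [Multiset.prod_cons, norm_mul, h a (Multiset.mem_cons_self a X),
      ih fun e he => h e (Multiset.mem_cons_of_mem he), one_mul]

theorem TMP_expo (A : Aut) {τ : A.Cusp} {m M : ℕ} (hEXP : S_EXP) (h : Ctx A τ m M)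
    {d : ℤ} {H : ℕ} {z : A.Cusp} (hz : z ∈ A.Irr τ m d H) : A.expo z = 0 := by
  obtain ⟨θ, hθ, -⟩ := h.arch
  have e1 := A.eig_u τ 1
  rw [hθ, Multiset.map_map] at e1
  have hn : ∀ j, ‖Complex.exp ((θ j : ℂ) * Complex.I * ((1 : ℝ) : ℂ))‖ = 1 := by
    intro j
    rw [Complex.norm_exp]
    simp
  have h1 : ∀ e ∈ A.eig z ⟨A.inf, A.u 1, 1⟩, ‖e‖ = 1 := by
    intro e he
    obtain ⟨a, -, rfl⟩ := hz.2 _ (fun j => Complex.exp ((θ j : ℂ) * Complex.I * ((1 : ℝ) : ℂ)))
      e1 e he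
    exact mon_norm _ hn a
  have h2 := (hEXP A).2.2.2 z A.inf (A.u 1)
  rw [TMP_norm_prod _ h1, A.ab_u, ← Real.exp_mul, one_mul] at h2
  have h3 : A.expo z * (A.deg z : ℝ) = 0 := by
    have := h2.symm
    rwa [Real.exp_eq_one_iff] at this
  rcases mul_eq_zero.1 h3 with h4 | h4
  · exact h4
  · exact absurd (Nat.cast_eq_zero.1 h4) (A.deg_pos z).ne'

theorem TMP_tensor (A : Aut) {τ : A.Cusp} {m : ℕ} (hBAS : S_BAS) (hRMU : S_RMU) (hRTA : S_RTA)
    (hTEN : S_TEN) (h2 : A.HasSym 2) (hm : 2 ≤ m) (hd : A.deg τ = m) (k : ℕ) :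
    ∃ T : Multiset A.Cusp, (∀ p, (A.eigs T p).sum = A.tr τ p ^ k) ∧
      ∀ w ∈ T, w ∈ A.Irr τ m k k := by
  have hτ := (hRTA A τ m hm hd).2.1
  induction k with
  | zero =>
    refine ⟨{A.one}, ?_, ?_⟩
    · intro p
      rw [eigs_singleton, (hBAS A).2.2.2.1 p]
      simp
    · intro w hw
      rw [Multiset.mem_singleton] at hw
      subst hw
      exact_mod_cast (hRTA A τ m hm hd).1
  | succ k ih =>
    obtain ⟨T, hT, hT'⟩ := ih
    have hz : ∀ z : A.Cusp, ∃ U : Multiset A.Cusp,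
        ∀ p, (A.eigs U p).sum = A.tr z p * A.tr τ p := by
      intro z
      obtain ⟨U, hU⟩ := hTEN A h2 {z} {τ}
      refine ⟨U, fun p => ?_⟩
      rw [hU p, eigs_singleton, eigs_singleton]
      rfl
    choose U hU using hz
    refine ⟨T.bind U, ?_, ?_⟩
    · intro p
      have key : ∀ T : Multiset A.Cusp,
          (A.eigs (T.bind U) p).sum = (A.eigs T p).sum * A.tr τ p := by
        intro T
        induction T using Multiset.induction_on with
        | empty => simp [AData.eigs]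
        | cons z T ih =>
          rw [Multiset.cons_bind, eigs_add, Multiset.sum_add, ih, eigs_cons, Multiset.sum_add,
            hU z p, add_mul]
          rfl
      rw [key, hT p, pow_succ]
    · intro w hw
      obtain ⟨z, hz, hw⟩ := Multiset.mem_bind.1 hw
      have := (hRMU A τ m h2 hm hd).1 k 1 k 1 z (hT' z hz) τ hτ (U z) (hU z) w hw
      exact_mod_cast this

theorem TMP_eigs_pow (A : Aut) (hBAS : S_BAS) (T : Multiset A.Cusp) (p : A.Pt) (n : ℕ) :
    A.eigs T (p.pow n) = (A.eigs T p).map fun a => a ^ n := by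
  induction T using Multiset.induction_on with
  | empty => simp [AData.eigs]
  | cons z T ih =>
    rw [eigs_cons, eigs_cons, ih, Multiset.map_add, (hBAS A).2.2.1 z p n]
    simp only [zpow_natCast]

theorem TMP_mem (A : Aut) {τ : A.Cusp} {m : ℕ} (hBAS : S_BAS) (hPSU : S_PSU)
    {T : Multiset A.Cusp} {k : ℕ} (hT : ∀ p, (A.eigs T p).sum = A.tr τ p ^ k)
    {p : A.Pt} {c : Fin m → ℂ} (hc : A.Ord τ p c) (j : Fin m) : c j ^ k ∈ A.eigs T p := by
  classical
  have hY : ∀ n : ℕ, ((Finset.univ.val.map fun I : Fin k → Fin m => ∏ i, c (I i)).map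
      fun a => a ^ n).sum = A.tr τ (p.pow n) ^ k := by
    intro n
    have h1 : A.tr τ (p.pow n) = ∑ j, c j ^ n := by
      unfold AData.tr
      rw [(hBAS A).2.2.1 τ p n, hc, Multiset.map_map]
      simp only [zpow_natCast]
      rfl
    rw [h1, Multiset.map_map]
    have h2 := Finset.prod_univ_sum (fun _ : Fin k => (Finset.univ : Finset (Fin m)))
      (fun _ j => c j ^ n)
    rw [Finset.prod_const, Finset.card_univ, Fintype.card_fin] at h2
    rw [h2, Fintype.piFinset_univ]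
    simp only [Function.comp_def, ← Finset.prod_pow]
    rfl
  have hcard : (A.eigs T p).card = m ^ k := by
    have h1 := hT (p.pow (0 : ℕ))
    rw [TMP_eigs_pow A hBAS] at h1
    unfold AData.tr at h1
    rw [(hBAS A).2.2.1 τ p, hc, Multiset.map_map] at h1
    simp only [pow_zero, Nat.cast_zero, zpow_zero, Multiset.map_const', Multiset.sum_replicate,
      Function.comp_def] at h1
    simp only [Finset.card_val, Finset.card_univ, Fintype.card_fin, nsmul_eq_mul, mul_one] at h1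
    exact_mod_cast h1
  have hX := hPSU (m ^ k) (A.eigs T p) (Finset.univ.val.map fun I : Fin k → Fin m => ∏ i, c (I i))
    hcard (by simp) (fun n _ _ => by rw [hY n, ← hT, TMP_eigs_pow A hBAS])
  rw [hX]
  refine Multiset.mem_map.2 ⟨fun _ => j, Finset.mem_univ_val _, ?_⟩
  simp

theorem s_TMP (hBAS : S_BAS) (hEXP : S_EXP) (hRMU : S_RMU) (hRTA : S_RTA) (hTEN : S_TEN)
    (hPSU : S_PSU) : S_TMP := by
  intro A τ m M h d H z hz
  refine ⟨TMP_expo A hEXP h hz, ?_⟩
  intro v a ha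
  obtain ⟨c, hc⟩ := exists_ord A.toAData (p := A.frob v) (τ := τ) (m := m) (by
    rw [(hBAS A).1 τ (A.frob v), h.deg])
  have hn : ∀ j, ‖c j‖ = 1 := by
    intro j
    have hk : ∀ k : ℕ, A.ab v (A.Fr v) ^ ((1 : ℝ) / 2) < ‖c j‖ ^ k ∧
        ‖c j‖ ^ k < A.ab v (A.Fr v) ^ (-((1 : ℝ) / 2)) := by
      intro k
      obtain ⟨T, hT, hT'⟩ := TMP_tensor A hBAS hRMU hRTA hTEN (h.sym 2) h.hm h.deg k
      have h1 := TMP_mem A hBAS hPSU hT hc j
      rw [mem_eigs] at h1
      obtain ⟨w, hw, hw'⟩ := h1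
      have h2 := (hBAS A).2.2.2.2.2.2.2.2.2.2.2 w v _ hw'
      rw [TMP_expo A hEXP h (hT' w hw), zero_add, zero_sub, norm_pow] at h2
      exact h2
    have hp := A.ab_pos v (A.Fr v)
    by_contra hne
    rcases lt_or_gt_of_ne hne with hlt | hgt
    · obtain ⟨k, hk'⟩ := exists_pow_lt_of_lt_one (Real.rpow_pos_of_pos hp (1 / 2)) hlt
      exact absurd hk' (not_lt.2 (hk k).1.le)
    · obtain ⟨k, hk'⟩ := pow_unbounded_of_one_lt (A.ab v (A.Fr v) ^ (-((1 : ℝ) / 2))) hgt
      exact absurd hk' (not_lt.2 (hk k).2.le)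
  obtain ⟨b, -, rfl⟩ := hz.2 _ c hc a ha
  exact mon_norm c hn b

end

end Pool.H66.SYM
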